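import Pool.Agent.W455.EM.Stm

/-!
# Project EM: the Erdos matching conjecture, asymptotically, and the fractional version
-/

set_option autoImplicit false

namespace Pool.Agent.W428.EM.EMCU

open Finset Pool.Agent.FracEM.PMT Pool.Agent.W455.EM

theorem frc (hC : S_CNT) (hS : S_S2) : S_FRC := by
  intro k n _ hn H y x hH hy hHy hsum hx hxk
  have hn0 : (0:ℝ) < n := by exact_mod_cast hn
  have hNe : Nonempty {v // v ∈ (univ : Finset (Fin n))} := ⟨⟨⟨0, hn⟩, mem_univ _⟩⟩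
  have hcard : (Fintype.card {v // v ∈ (univ : Finset (Fin n))} : ℝ) = n := by simp
  have hT : (k : ℝ) + 1 ≤ 1 / x := by
    rw [le_div_iff₀ hx]
    have hk : (0:ℝ) < (k:ℝ) + 1 := by positivity
    rw [le_div_iff₀ hk] at hxk
    linarith
  have h1 := hC n univ (fun v => y v / x) k (1 / x)
  have h2 := hS {v // v ∈ (univ : Finset (Fin n))} (fun v => y v.1 / x) k (1 / x)
    (fun v => div_nonneg (hy v.1) hx.le) (by
      rw [Finset.sum_coe_sort univ (fun v => y v / x), hcard, ← Finset.sum_div, div_le_iff₀ hx]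
      linarith) hT
  rw [hcard, one_div_one_div] at h2
  have h3 : H ⊆ (univ.powersetCard k).filter (fun S => 1 / x ≤ ∑ v ∈ S, y v / x) := by
    intro e he
    rw [mem_filter, mem_powersetCard_univ]
    refine ⟨hH e he, ?_⟩
    rw [← Finset.sum_div]
    exact div_le_div_of_nonneg_right (hHy e he) hx.le
  have h4 : (H.card : ℝ) ≤
      (((univ.powersetCard k).filter (fun S => 1 / x ≤ ∑ v ∈ S, y v / x)).card : ℝ) := by
    exact_mod_cast card_le_card h3
  have h5 : (H.card : ℝ) * (k.factorial : ℝ) ≤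
      (((univ.powersetCard k).filter (fun S => 1 / x ≤ ∑ v ∈ S, y v / x)).card : ℝ) *
        (k.factorial : ℝ) := by gcongr
  have h6 : ((univ : Finset (Fin n)).card : ℝ) = n := by simp
  rw [h6] at h1
  calc (H.card : ℝ) * (k.factorial : ℝ) ≤ _ := h5
    _ ≤ _ := h1
    _ ≤ (n:ℝ) ^ k - (n:ℝ) ^ k * (1 - x) ^ k := by linarith
    _ = (1 - (1 - x) ^ k) * (n : ℝ) ^ k := by ring

/-- number of `k`-sets containing a given pair -/
theorem pair_count (n k : ℕ) (_hk : 2 ≤ k) (p : Fin n × Fin n) (hp : p.1 ≠ p.2)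
    (H : Finset (Finset (Fin n))) (hH : ∀ e ∈ H, e.card = k) :
    (H.filter (fun e => p.1 ∈ e ∧ p.2 ∈ e)).card ≤ n ^ (k - 2) := by
  calc (H.filter (fun e => p.1 ∈ e ∧ p.2 ∈ e)).card
      ≤ ((univ : Finset (Fin n)).powersetCard (k - 2)).card := by
        apply card_le_card_of_injOn (fun e => e \ {p.1, p.2})
        · intro e he
          rw [mem_coe, mem_filter] at he
          rw [mem_coe, mem_powersetCard_univ]
          have h1 : ({p.1, p.2} : Finset (Fin n)) ⊆ e := by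
            intro v hv
            simp only [mem_insert, mem_singleton] at hv
            rcases hv with rfl | rfl
            · exact he.2.1
            · exact he.2.2
          rw [card_sdiff_of_subset h1, hH e he.1, card_pair hp]
        · intro e he e' he' hee
          rw [mem_coe, mem_filter] at he he'
          have h1 : ∀ f : Finset (Fin n), p.1 ∈ f → p.2 ∈ f →
              f = (f \ {p.1, p.2}) ∪ {p.1, p.2} := by
            intro f hf1 hf2
            rw [sdiff_union_of_subset]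
            intro v hv
            simp only [mem_insert, mem_singleton] at hv
            rcases hv with rfl | rfl
            · exact hf1
            · exact hf2
          have hee' : e \ {p.1, p.2} = e' \ {p.1, p.2} := hee
          rw [h1 e he.2.1 he.2.2, h1 e' he'.2.1 he'.2.2, hee']
    _ = n.choose (k - 2) := by rw [card_powersetCard, card_univ, Fintype.card_fin]
    _ ≤ n ^ (k - 2) := Nat.choose_le_pow n (k - 2)

/-- lower bound for binomial coefficients -/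
theorem choose_lower (n k : ℕ) (hn : 1 ≤ n) (hk : 1 ≤ k) (hkn : k ≤ n) :
    (n:ℝ) ^ k - (k:ℝ) ^ 2 * (n:ℝ) ^ (k - 1) ≤ (k.factorial : ℝ) * ((n.choose k : ℕ) : ℝ) := by
  have hn0 : (0:ℝ) < n := by exact_mod_cast hn
  have h1 : ((n + 1 - k : ℕ) : ℝ) ^ k ≤ ((n.descFactorial k : ℕ) : ℝ) := by
    exact_mod_cast Nat.pow_sub_le_descFactorial n k
  rw [Nat.descFactorial_eq_factorial_mul_choose] at h1
  push_cast at h1
  refine le_trans ?_ h1
  have h2 : (n:ℝ) - k ≤ ((n + 1 - k : ℕ) : ℝ) := by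
    have : ((n + 1 - k : ℕ) : ℝ) = (n:ℝ) + 1 - k := by
      rw [Nat.cast_sub (by omega)]
      push_cast
      ring
    rw [this]
    linarith
  have h3 : (0:ℝ) ≤ (n:ℝ) - k := by
    have : (k:ℝ) ≤ n := by exact_mod_cast hkn
    linarith
  refine le_trans ?_ (pow_le_pow_left₀ h3 h2 k)
  have h4 : (1 + (k:ℝ) * (-((k:ℝ) / n))) ≤ (1 + (-((k:ℝ) / n))) ^ k := by
    apply one_add_mul_le_pow
    have : (k:ℝ) / n ≤ 1 := by
      rw [div_le_one hn0]
      exact_mod_cast hkn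
    linarith
  have h5 : (n:ℝ) ^ k * (1 + (k:ℝ) * (-((k:ℝ) / n))) ≤ (n:ℝ) ^ k * (1 + (-((k:ℝ) / n))) ^ k := by
    gcongr
  have h6 : (n:ℝ) ^ k * (1 + (-((k:ℝ) / n))) ^ k = ((n:ℝ) - k) ^ k := by
    rw [← mul_pow]
    congr 1
    field_simp
    ring
  have h7 : (n:ℝ) ^ k = (n:ℝ) ^ (k - 1) * n := by
    rw [← pow_succ]
    congr 1
    omega
  have h8 : (n:ℝ) ^ k * (1 + (k:ℝ) * (-((k:ℝ) / n))) = (n:ℝ) ^ k - (k:ℝ) ^ 2 * (n:ℝ) ^ (k - 1) := by
    rw [h7]
    field_simp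
    ring
  rw [← h8, ← h6]
  exact h5

theorem main (hL : S_LPD) (hC : S_CNT) (hS : S_S2e) : S_EMCU := by
  intro k hk x hx hxk ε hε
  -- choice of η
  obtain ⟨η, hη, hη2⟩ : ∃ η : ℝ, 0 < η ∧ (1 + 2 * η) ^ k ≤ 1 + ε / 2 := by
    have hc : Filter.Tendsto (fun η : ℝ => (1 + 2 * η) ^ k) (nhds 0) (nhds ((1 + 2 * 0) ^ k)) := by
      apply Continuous.tendsto
      fun_prop
    have h1 : ((1:ℝ) + 2 * 0) ^ k < 1 + ε / 2 := by
      rw [mul_zero, add_zero, one_pow]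
      linarith
    have h2 := (hc.eventually (gt_mem_nhds h1)).filter_mono
      (nhdsWithin_le_nhds (s := Set.Ioi (0:ℝ)))
    have h3 : ∀ᶠ η : ℝ in nhdsWithin 0 (Set.Ioi 0), 0 < η := self_mem_nhdsWithin
    obtain ⟨η, h4, h5⟩ := (h2.and h3).exists
    exact ⟨η, h5, h4.le⟩
  obtain ⟨C, hC0, hLP⟩ := hL k hk η hη
  have hk1 : (0:ℝ) < (k:ℝ) + 1 := by positivity
  have hT : (k : ℝ) + 1 ≤ 1 / x := by
    rw [le_div_iff₀ hx]
    rw [le_div_iff₀ hk1] at hxk
    linarith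
  have hx1 : x ≤ 1 := by
    refine hxk.trans ?_
    rw [div_le_one hk1]
    have : (0:ℝ) ≤ k := by positivity
    linarith
  set a : ℝ := 1 - (1 - x) ^ k with ha
  have ha1 : a ≤ 1 := by
    have : 0 ≤ (1 - x) ^ k := pow_nonneg (by linarith) k
    linarith
  have ha0 : 0 ≤ a := by
    have : (1 - x) ^ k ≤ 1 := pow_le_one₀ (by linarith) (by linarith)
    linarith
  set B : ℝ := (k.factorial : ℝ) * C + (a + ε) * (k:ℝ) ^ 2 with hB
  refine ⟨⌈2 * B / ε⌉₊ + ⌈1 / η⌉₊ + k + 1, ?_⟩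
  intro n hn H hH hM
  have hn1 : 1 ≤ n := by omega
  have hkn : k ≤ n := by omega
  have hn0 : (0:ℝ) < n := by exact_mod_cast hn1
  have hnB : 2 * B / ε ≤ n := by
    have h1 := Nat.le_ceil (2 * B / ε)
    have h2 : ((⌈2 * B / ε⌉₊ : ℕ) : ℝ) ≤ n := by
      have : ⌈2 * B / ε⌉₊ ≤ n := by omega
      exact_mod_cast this
    linarith
  have hnη : 1 / η ≤ n := by
    have h1 := Nat.le_ceil (1 / η)
    have h2 : ((⌈1 / η⌉₊ : ℕ) : ℝ) ≤ n := by
      have : ⌈1 / η⌉₊ ≤ n := by omega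
      exact_mod_cast this
    linarith
  rw [div_le_iff₀ hε] at hnB
  rw [div_le_iff₀ hη] at hnη
  obtain ⟨y, P, hy, hysum, hPc, hPne, hHy⟩ := hLP n univ H hH (fun e _ => subset_univ e) (x * n) hM
  have hNe : Nonempty {v // v ∈ (univ : Finset (Fin n))} := ⟨⟨⟨0, hn1⟩, mem_univ _⟩⟩
  have hcard : (Fintype.card {v // v ∈ (univ : Finset (Fin n))} : ℝ) = n := by simp
  have hcard' : ((univ : Finset (Fin n)).card : ℝ) = n := by simp
  have c1 := hC n univ (fun v => y v / x) k (1 / x)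
  have c2 := hS {v // v ∈ (univ : Finset (Fin n))} (fun v => y v.1 / x) k (1 / x) η
    (fun v => div_nonneg (hy v.1) hx.le) hη (by rw [hcard]; linarith) (by
      rw [Finset.sum_coe_sort univ (fun v => y v / x), hcard, ← Finset.sum_div, div_le_iff₀ hx]
      linarith) hT
  rw [hcard, one_div_one_div] at c2
  rw [hcard'] at c1 hPc
  -- the two parts of H
  have hsub : H ⊆ ((univ.powersetCard k).filter (fun S => 1 / x ≤ ∑ v ∈ S, y v / x)) ∪
      P.biUnion (fun p => H.filter (fun e => p.1 ∈ e ∧ p.2 ∈ e)) := by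
    intro e he
    rw [mem_union]
    rcases hHy e he with ⟨p, hp, h1, h2⟩ | h
    · right
      rw [mem_biUnion]
      exact ⟨p, hp, mem_filter.2 ⟨he, h1, h2⟩⟩
    · left
      rw [mem_filter, mem_powersetCard_univ]
      refine ⟨hH e he, ?_⟩
      rw [← Finset.sum_div]
      exact div_le_div_of_nonneg_right h hx.le
  have hPU : ((P.biUnion (fun p => H.filter (fun e => p.1 ∈ e ∧ p.2 ∈ e))).card : ℝ) ≤
      C * (n:ℝ) ^ (k - 1) := by
    have h1 : (P.biUnion (fun p => H.filter (fun e => p.1 ∈ e ∧ p.2 ∈ e))).card ≤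
        P.card * n ^ (k - 2) := by
      apply card_biUnion_le_card_mul
      intro p hp
      exact pair_count n k hk p (hPne p hp).1 H hH
    have h2 : ((P.biUnion (fun p => H.filter (fun e => p.1 ∈ e ∧ p.2 ∈ e))).card : ℝ) ≤
        (P.card : ℝ) * (n:ℝ) ^ (k - 2) := by exact_mod_cast h1
    have h3 : (n:ℝ) ^ (k - 1) = n * (n:ℝ) ^ (k - 2) := by
      rw [← pow_succ']
      congr 1
      omega
    calc _ ≤ (P.card : ℝ) * (n:ℝ) ^ (k - 2) := h2
      _ ≤ (C * n) * (n:ℝ) ^ (k - 2) := by gcongr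
      _ = C * (n:ℝ) ^ (k - 1) := by rw [h3]; ring
  set F := (univ.powersetCard k).filter (fun S : Finset (Fin n) => 1 / x ≤ ∑ v ∈ S, y v / x) with hF
  have hcardH : (H.card : ℝ) ≤ (F.card : ℝ) + C * (n:ℝ) ^ (k - 1) := by
    have h1 : H.card ≤ F.card +
        (P.biUnion (fun p => H.filter (fun e => p.1 ∈ e ∧ p.2 ∈ e))).card :=
      (card_le_card hsub).trans (card_union_le _ _)
    have h2 : (H.card : ℝ) ≤ (F.card : ℝ) +
        ((P.biUnion (fun p => H.filter (fun e => p.1 ∈ e ∧ p.2 ∈ e))).card : ℝ) := by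
      exact_mod_cast h1
    linarith
  have hFk : (F.card : ℝ) * (k.factorial : ℝ) ≤ (a + ε / 2) * (n:ℝ) ^ k := by
    have h1 : (F.card : ℝ) * (k.factorial : ℝ) ≤ (n:ℝ) ^ k * ((1 + 2 * η) ^ k * a) := by
      have h2 : (n:ℝ) ^ k * (1 - (1 + 2 * η) ^ k * (1 - (1 - x) ^ k)) =
          (n:ℝ) ^ k - (n:ℝ) ^ k * ((1 + 2 * η) ^ k * a) := by rw [ha]; ring
      rw [h2] at c2
      linarith
    refine h1.trans ?_
    have h3 : (1 + 2 * η) ^ k * a ≤ a + ε / 2 := by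
      calc (1 + 2 * η) ^ k * a ≤ (1 + ε / 2) * a := by gcongr
        _ = a + ε / 2 * a := by ring
        _ ≤ a + ε / 2 * 1 := by gcongr
        _ = a + ε / 2 := by ring
    calc (n:ℝ) ^ k * ((1 + 2 * η) ^ k * a) ≤ (n:ℝ) ^ k * (a + ε / 2) := by gcongr
      _ = (a + ε / 2) * (n:ℝ) ^ k := by ring
  have hfac : (0:ℝ) < (k.factorial : ℝ) := by exact_mod_cast k.factorial_pos
  have hHk : (H.card : ℝ) * (k.factorial : ℝ) ≤
      (a + ε / 2) * (n:ℝ) ^ k + (k.factorial : ℝ) * C * (n:ℝ) ^ (k - 1) := by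
    calc (H.card : ℝ) * (k.factorial : ℝ) ≤
        ((F.card : ℝ) + C * (n:ℝ) ^ (k - 1)) * (k.factorial : ℝ) := by gcongr
      _ = (F.card : ℝ) * (k.factorial : ℝ) + (k.factorial : ℝ) * C * (n:ℝ) ^ (k - 1) := by ring
      _ ≤ _ := by linarith
  have hlow := choose_lower n k hn1 (by omega) hkn
  have hpow : (n:ℝ) ^ k = n * (n:ℝ) ^ (k - 1) := by
    rw [← pow_succ']
    congr 1
    omega
  have hfin : (a + ε / 2) * (n:ℝ) ^ k + (k.factorial : ℝ) * C * (n:ℝ) ^ (k - 1) ≤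
      (a + ε) * ((n:ℝ) ^ k - (k:ℝ) ^ 2 * (n:ℝ) ^ (k - 1)) := by
    have h1 : B * (n:ℝ) ^ (k - 1) ≤ ε / 2 * (n:ℝ) ^ k := by
      rw [hpow]
      have h2 : B ≤ ε / 2 * n := by linarith
      calc B * (n:ℝ) ^ (k - 1) ≤ (ε / 2 * n) * (n:ℝ) ^ (k - 1) := by gcongr
        _ = ε / 2 * (n * (n:ℝ) ^ (k - 1)) := by ring
    have h3 : B * (n:ℝ) ^ (k - 1) = (k.factorial : ℝ) * C * (n:ℝ) ^ (k - 1) +
        (a + ε) * ((k:ℝ) ^ 2 * (n:ℝ) ^ (k - 1)) := by rw [hB]; ring
    have h4 : (a + ε) * ((n:ℝ) ^ k - (k:ℝ) ^ 2 * (n:ℝ) ^ (k - 1)) =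
        (a + ε) * (n:ℝ) ^ k - (a + ε) * ((k:ℝ) ^ 2 * (n:ℝ) ^ (k - 1)) := by ring
    rw [h4]
    have h5 : (a + ε / 2) * (n:ℝ) ^ k = (a + ε) * (n:ℝ) ^ k - ε / 2 * (n:ℝ) ^ k := by ring
    rw [h5]
    linarith
  have hae : 0 ≤ a + ε := by linarith
  have hlast : (H.card : ℝ) * (k.factorial : ℝ) ≤
      ((a + ε) * ((n.choose k : ℕ) : ℝ)) * (k.factorial : ℝ) := by
    calc (H.card : ℝ) * (k.factorial : ℝ) ≤ _ := hHk
      _ ≤ _ := hfin
      _ ≤ (a + ε) * ((k.factorial : ℝ) * ((n.choose k : ℕ) : ℝ)) := by gcongr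
      _ = _ := by ring
  exact le_of_mul_le_mul_right hlast hfac

end Pool.Agent.W428.EM.EMCU
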